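import Pool.Agent.V11323.DirectSum

/-!
# The countable direct sum of copies of the integers is not algebraically recurrent

The steps of the walk are `± e_k`, where `e_k` are the basis vectors and `k` is heavy-tailed,
`P(k ≥ m) = 1 / (m + 1)`.  Eventually every record of the index `k` is attained exactly once before
it is surpassed; so, for a random choice of signs, the walk is eventually in the semigroup of all
elements whose last non-zero coordinate has the prescribed sign, which misses `0`.
-/

set_option autoImplicit false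

open MeasureTheory

namespace Pool.Agent.Results.MP_eb99da_pr.DirectSumNotAR

/-- The walk `X_m = ζ_1 ζ_2 ... ζ_m` with steps `ζ_{l+1} = ω l`. -/
def walk {G : Type} [Group G] (ω : ℕ → G) (m : ℕ) : G := ((List.range m).map ω).prod

/-- `S_n`: the subsemigroup generated by `X_n, X_{n+1}, ...`. -/
def tail {G : Type} [Group G] (ω : ℕ → G) (n : ℕ) : Subsemigroup G :=
  Subsemigroup.closure {g | ∃ m, n ≤ m ∧ g = walk ω m}

/-- The pair `(G, μ)` is algebraically recurrent: for every `n ≥ 1`, almost surely `S_n = G`,
where the steps are independent with law `μ`. -/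
def PairAR {G : Type} [Group G] (μ : PMF G) : Prop :=
  let _ : MeasurableSpace G := ⊤
  ∀ n : ℕ, 1 ≤ n → ∀ᵐ ω ∂(Measure.infinitePi (fun _ : ℕ => μ.toMeasure)), tail ω n = ⊤

/-- The group `G` is algebraically recurrent: `(G, μ)` is, for every symmetric probability measure
`μ` on `G` whose support generates `G` as a group. -/
def GroupAR (G : Type) [Group G] : Prop :=
  ∀ μ : PMF G, (∀ g : G, μ g⁻¹ = μ g) → Subgroup.closure μ.support = ⊤ → PairAR μ

/-- The group `⊕_ℤ ℤ` of finitely supported functions `ℤ → ℤ` (written multiplicatively) is not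
algebraically recurrent. -/
theorem result : ¬ GroupAR (Multiplicative (ℤ →₀ ℤ)) := by
  intro h
  let _ : MeasurableSpace (Multiplicative (ℤ →₀ ℤ)) := ⊤
  have hd : DiscreteMeasurableSpace (Multiplicative (ℤ →₀ ℤ)) := ⟨fun _ => trivial⟩
  let e : ℕ ≃ ℤ := Equiv.intEquivNat.symm
  have h1 := Pool.Agent.V11323.co_bs e
  have h0 := Pool.Agent.V11323.co_bs_ne e
  obtain ⟨n, hn, hpos⟩ := Pool.Agent.V11323.nu_pos (Pool.Agent.V11323.bs e)
    (Pool.Agent.V11323.co e) h1 h0
  have h2 := h (Pool.Agent.V11323.nu (Pool.Agent.V11323.bs e))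
    (Pool.Agent.V11323.nu_symm _) (Pool.Agent.V11323.nu_closure _
      (Pool.Agent.V11323.closure_bs e)) n hn
  exact hpos.ne' (ae_iff.1 h2)

end Pool.Agent.Results.MP_eb99da_pr.DirectSumNotAR
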